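import Pool.Agent.W2helper6.HE.Split

/-!
# Families of polynomials over a number field whose values are squares up to finitely many factors

`finite_values`: let `p k`, `k ∈ κ`, be finitely many nonzero polynomials over a number field `K`, one
of them of odd degree, with together at least four roots of odd multiplicity in an algebraically closed
field. Then the number of the `x ∈ K` for which every `p k (x)` is of the form `t y²`, `t ∈ T` (a finite
set), is finite. (With the point at infinity these are at least five branch points.)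
-/

set_option autoImplicit false

namespace Pool.Agent.W2helper6.HE

open NumberField Polynomial

/-- the points where one of the polynomials has a zero of odd multiplicity -/
def OddRoots {K : Type*} {κ : Type*} [Field K] (Ω : Type*) [Field Ω] [Algebra K Ω] (p : κ → K[X]) :
    Set Ω :=
  {z | ∃ k, Odd (((p k).map (algebraMap K Ω)).rootMultiplicity z)}

/-- the roots of odd multiplicity are there in every splitting field -/
lemma oddRoots_ncard {K κ L Ω : Type*} [Field K] [Field L] [Field Ω] [Algebra K L] [Algebra K Ω]
    (φ : L →ₐ[K] Ω) (p : κ → K[X]) (h0 : ∀ k, p k ≠ 0)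
    (hs : ∀ k, ((p k).map (algebraMap K L)).Splits) :
    (OddRoots Ω p).ncard = (OddRoots L p).ncard := by
  have hinj : Function.Injective φ := φ.toRingHom.injective
  have hcomp : (φ : L →+* Ω).comp (algebraMap K L) = algebraMap K Ω := φ.comp_algebraMap
  have hmap : ∀ k, (p k).map (algebraMap K Ω) = ((p k).map (algebraMap K L)).map (φ : L →+* Ω) := by
    intro k
    rw [Polynomial.map_map, hcomp]
  have himg : OddRoots Ω p = φ '' OddRoots L p := by
    ext z
    constructor
    · rintro ⟨k, hk⟩
      have hpos : 0 < ((p k).map (algebraMap K Ω)).rootMultiplicity z := hk.pos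
      have hne : (p k).map (algebraMap K L) ≠ 0 :=
        (Polynomial.map_ne_zero_iff (algebraMap K L).injective).2 (h0 k)
      have hroot : (((p k).map (algebraMap K L)).map (φ : L →+* Ω)).IsRoot z := by
        rw [← hmap]
        exact (Polynomial.rootMultiplicity_pos'.1 hpos).2
      obtain ⟨w, hw⟩ := (hs k).mem_range_of_isRoot hne hroot
      refine ⟨w, ⟨k, ?_⟩, hw⟩
      rw [Polynomial.eq_rootMultiplicity_map (f := (φ : L →+* Ω)) hinj, ← hmap, hw]
      exact hk
    · rintro ⟨w, ⟨k, hk⟩, rfl⟩
      refine ⟨k, ?_⟩
      rw [Polynomial.eq_rootMultiplicity_map (f := (φ : L →+* Ω)) hinj, ← hmap] at hk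
      exact hk
  rw [himg, Set.ncard_image_of_injective _ hinj]

/-- **Finiteness**, for polynomials over a number field. -/
theorem finite_values {K : Type} [Field K] [NumberField K] {κ : Type} [Fintype κ] (Ω : Type*)
    [Field Ω] [IsAlgClosed Ω] [Algebra K Ω] (p : κ → K[X]) (h0 : ∀ k, p k ≠ 0)
    (hodd : ∃ k, Odd (p k).natDegree) (h4 : 4 ≤ (OddRoots Ω p).ncard) (T : Finset K) :
    {x : K | ∀ k, ∃ t ∈ T, ∃ y, (p k).eval x = t * y ^ 2}.Finite := by
  classical
  let P : K[X] := ∏ k, p k
  let L : Type := P.SplittingField
  have : Module.Finite K L := inferInstance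
  have : NumberField L := NumberField.of_module_finite K L
  have hP0 : P ≠ 0 := Finset.prod_ne_zero_iff.2 fun k _ => h0 k
  have hPs : (P.map (algebraMap K L)).Splits := Polynomial.SplittingField.splits P
  have hne : ∀ k, (p k).map (algebraMap K L) ≠ 0 := fun k =>
    (Polynomial.map_ne_zero_iff (algebraMap K L).injective).2 (h0 k)
  have hPne : P.map (algebraMap K L) ≠ 0 :=
    (Polynomial.map_ne_zero_iff (algebraMap K L).injective).2 hP0
  have hdvd : ∀ k, (p k).map (algebraMap K L) ∣ P.map (algebraMap K L) := fun k =>
    Polynomial.map_dvd _ (Finset.dvd_prod_of_mem p (Finset.mem_univ k))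
  have hs : ∀ k, ((p k).map (algebraMap K L)).Splits := fun k => hPs.of_dvd hPne (hdvd k)
  let φ : L →ₐ[K] Ω := IsAlgClosed.lift
  rw [oddRoots_ncard φ p h0 hs] at h4
  let E : Finset L := (P.map (algebraMap K L)).roots.toFinset
  have hE : ∀ k, ((p k).map (algebraMap K L)).roots.toFinset ⊆ E := by
    intro k z hz
    rw [Multiset.mem_toFinset, Polynomial.mem_roots (hne k)] at hz
    rw [Multiset.mem_toFinset, Polynomial.mem_roots hPne]
    exact hz.dvd (hdvd k)
  let m : κ → L → ℕ := fun k e => ((p k).map (algebraMap K L)).roots.count e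
  let c : κ → L := fun k => algebraMap K L (p k).leadingCoeff
  have hc : ∀ k, c k ≠ 0 := fun k => by
    show algebraMap K L (p k).leadingCoeff ≠ 0
    rw [Ne, map_eq_zero]
    exact leadingCoeff_ne_zero.2 (h0 k)
  have hout : ∀ k, ∀ e ∈ E, e ∉ ((p k).map (algebraMap K L)).roots.toFinset → m k e = 0 := by
    intro k e _ he
    rw [Multiset.mem_toFinset] at he
    exact Multiset.count_eq_zero.2 he
  have hdeg : ∀ k, ∑ e ∈ E, m k e = (p k).natDegree := by
    intro k
    rw [← Finset.sum_subset (hE k) (hout k), Multiset.toFinset_sum_count_eq,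
      ← (hs k).natDegree_eq_card_roots, Polynomial.natDegree_map]
  have heval : ∀ k (x : K), algebraMap K L ((p k).eval x) =
      c k * ∏ e ∈ E, (algebraMap K L x - e) ^ m k e := by
    intro k x
    rw [← Finset.prod_subset (hE k) (fun e he hne => by rw [hout k e he hne, pow_zero]),
      ← Finset.prod_multiset_map_count]
    have h1 : algebraMap K L ((p k).eval x) =
        ((p k).map (algebraMap K L)).eval (algebraMap K L x) := by
      rw [Polynomial.eval_map, Polynomial.eval₂_at_apply]
    rw [h1, (hs k).eval_eq_prod_roots, Polynomial.leadingCoeff_map]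
  have hfin := fin_split E m c hc (by
    obtain ⟨k, hk⟩ := hodd
    exact ⟨k, by rw [hdeg k]; exact hk⟩) (by
    have : OddRoots L p = ((E.filter fun e => ∃ k, Odd (m k e) : Finset L) : Set L) := by
      ext z
      rw [Finset.coe_filter]
      constructor
      · rintro ⟨k, hk⟩
        rw [← Polynomial.count_roots] at hk
        refine ⟨hE k ?_, k, hk⟩
        rw [Multiset.mem_toFinset]
        exact Multiset.count_pos.1 hk.pos
      · rintro ⟨-, k, hk⟩
        refine ⟨k, ?_⟩
        rw [← Polynomial.count_roots]
        exact hk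
    rw [this, Set.ncard_coe_finset] at h4
    exact h4) (T.image (algebraMap K L))
  refine (hfin.preimage (f := algebraMap K L) (algebraMap K L).injective.injOn).subset ?_
  intro x hx k
  obtain ⟨t, ht, y, hy⟩ := hx k
  refine ⟨algebraMap K L t, Finset.mem_image_of_mem _ ht, algebraMap K L y, ?_⟩
  rw [← heval, hy, map_mul, map_pow]

end Pool.Agent.W2helper6.HE
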