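import Pool.Agent.W2helper6.BT.Sel
import Pool.Agent.W2helper83.BT.Five

/-!
# Mordell's conjecture for hyperelliptic curves and their coverings, over every number field

`x - e = t s ^ 2` for four points `e` and finitely many `t`; families of polynomials whose values at
`x` are squares up to finitely many factors.
-/

set_option autoImplicit false

namespace Pool.Agent.W2helper6.HE

open IsDedekindDomain NumberField Polynomial
open Pool.Agent.W2helper83.BT

theorem sel2 : SEL 2 := Pool.Agent.W2helper6.BT.sel 2 (by norm_num)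

theorem five : FIVE := Pool.Agent.W2helper83.BT.five sel2 Pool.Agent.W2helper6.BT.roots

/-- four points, finitely many square classes -/
theorem fin_classes {L : Type} [Field L] [NumberField L] (e : Fin 4 → L)
    (he : Function.Injective e) (T : Finset L) :
    {x : L | ∀ i, ∃ t ∈ T, ∃ s, x - e i = t * s ^ 2}.Finite := by
  classical
  obtain ⟨M, _, _, _, hM⟩ := Pool.Agent.W2helper6.BT.roots L T 2 (by norm_num)
  have hne : ∀ i j : Fin 4, i ≠ j → algebraMap L M (e i) ≠ algebraMap L M (e j) :=
    fun i j hij h => hij (he ((algebraMap L M).injective h))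
  have hfive := five M (algebraMap L M (e 0)) (algebraMap L M (e 1)) (algebraMap L M (e 2))
    (algebraMap L M (e 3)) (hne 0 1 (by decide)) (hne 0 2 (by decide)) (hne 0 3 (by decide))
    (hne 1 2 (by decide)) (hne 1 3 (by decide)) (hne 2 3 (by decide))
  refine (hfive.preimage (f := algebraMap L M) (algebraMap L M).injective.injOn).subset ?_
  intro x hx
  have key : ∀ i, ∃ s : M, algebraMap L M x - algebraMap L M (e i) = s ^ 2 := by
    intro i
    obtain ⟨t, ht, s, hs⟩ := hx i
    obtain ⟨θ, hθ⟩ := hM t ht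
    exact ⟨θ * algebraMap L M s, by rw [mul_pow, hθ, ← map_pow, ← map_mul, ← map_sub, hs]⟩
  exact ⟨key 0, key 1, key 2, key 3⟩

section

variable {L : Type} [Field L] [NumberField L]

/-- an element is a unit outside a finite set of places -/
lemma finite_ne_one {x : L} (hx : x ≠ 0) :
    {v : HeightOneSpectrum (𝓞 L) | v.valuation L x ≠ 1}.Finite := by
  refine ((HeightOneSpectrum.Support.finite (𝓞 L) x).union
    (HeightOneSpectrum.Support.finite (𝓞 L) x⁻¹)).subset ?_
  intro v hv
  rcases lt_or_gt_of_ne hv with h | h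
  · right
    change 1 < v.valuation L x⁻¹
    rw [map_inv₀]
    have h0 : v.valuation L x ≠ 0 := (Valuation.ne_zero_iff _).2 hx
    exact (one_lt_inv₀ (zero_lt_iff.2 h0)).2 h
  · left
    exact h

lemma finite_gt (x : L) : {v : HeightOneSpectrum (𝓞 L) | ¬ v.valuation L x ≤ 1}.Finite := by
  refine (HeightOneSpectrum.Support.finite (𝓞 L) x).subset ?_
  intro v hv
  exact not_le.1 hv

/-- Families of polynomials which split completely. -/
theorem fin_split {κ : Type} [Fintype κ] (E : Finset L) (m : κ → L → ℕ) (c : κ → L)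
    (hc : ∀ k, c k ≠ 0) (hodd : ∃ k, Odd (∑ e ∈ E, m k e))
    (h4 : 4 ≤ (E.filter fun e => ∃ k, Odd (m k e)).card) (T : Finset L) :
    {x : L | ∀ k, ∃ t ∈ T, ∃ y, c k * ∏ e ∈ E, (x - e) ^ m k e = t * y ^ 2}.Finite := by
  classical
  -- the bad places
  let S : Set (HeightOneSpectrum (𝓞 L)) :=
    (⋃ e ∈ E, {v | ¬ v.valuation L e ≤ 1}) ∪ ((⋃ e ∈ E, ⋃ e' ∈ E, {v | e ≠ e' ∧ v.valuation L (e - e') ≠ 1}) ∪
      ((⋃ k, {v | v.valuation L (c k) ≠ 1}) ∪ ⋃ t ∈ T, {v | t ≠ 0 ∧ v.valuation L t ≠ 1}))
  have hS : S.Finite := by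
    refine Set.Finite.union (Set.Finite.biUnion E.finite_toSet fun e _ => finite_gt e)
      (Set.Finite.union (Set.Finite.biUnion E.finite_toSet fun e _ =>
        Set.Finite.biUnion E.finite_toSet fun e' _ => ?_)
      (Set.Finite.union (Set.finite_iUnion fun k => finite_ne_one (hc k))
        (Set.Finite.biUnion T.finite_toSet fun t _ => ?_)))
    · by_cases h : e = e'
      · refine Set.finite_empty.subset ?_
        rintro v ⟨h1, -⟩
        exact absurd h h1
      · refine (finite_ne_one (sub_ne_zero.2 h)).subset ?_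
        rintro v ⟨-, h1⟩
        exact h1
    · by_cases h : t = 0
      · refine Set.finite_empty.subset ?_
        rintro v ⟨h1, -⟩
        exact absurd h h1
      · refine (finite_ne_one h).subset ?_
        rintro v ⟨-, h1⟩
        exact h1
  have hS1 : ∀ v ∉ S, ∀ e ∈ E, v.valuation L e ≤ 1 := by
    intro v hv e he
    by_contra h
    exact hv (Or.inl (Set.mem_biUnion he h))
  have hS2 : ∀ v ∉ S, ∀ e ∈ E, ∀ e' ∈ E, e ≠ e' → v.valuation L (e - e') = 1 := by
    intro v hv e he e' he' hne
    by_contra h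
    exact hv (Or.inr (Or.inl (Set.mem_biUnion he (Set.mem_biUnion he' ⟨hne, h⟩))))
  have hS3 : ∀ v ∉ S, ∀ k, v.valuation L (c k) = 1 := by
    intro v hv k
    by_contra h
    exact hv (Or.inr (Or.inr (Or.inl (Set.mem_iUnion.2 ⟨k, h⟩))))
  have hS4 : ∀ v ∉ S, ∀ t ∈ T, t ≠ 0 → v.valuation L t = 1 := by
    intro v hv t ht h0
    by_contra h
    exact hv (Or.inr (Or.inr (Or.inr (Set.mem_biUnion ht ⟨h0, h⟩))))
  obtain ⟨T', -, hT'⟩ := sel2 L S hS
  -- four points
  obtain ⟨F, hFE, hF4⟩ := Finset.exists_subset_card_eq h4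
  let e : Fin 4 → L := fun i => ((F.equivFinOfCardEq hF4).symm i : L)
  have he : Function.Injective e := fun i j h =>
    (F.equivFinOfCardEq hF4).symm.injective (Subtype.ext h)
  have heF : ∀ i, e i ∈ F := fun i => ((F.equivFinOfCardEq hF4).symm i).2
  refine ((fin_classes e he T').union E.finite_toSet).subset ?_
  intro x hx
  by_cases hxE : x ∈ E
  · exact Or.inr hxE
  left
  intro i
  obtain ⟨hei, k, hk⟩ := Finset.mem_filter.1 (hFE (heF i))
  have hne : ∀ e' ∈ E, x - e' ≠ 0 := fun e' he' h => hxE (by rw [sub_eq_zero.1 h]; exact he')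
  -- the value is not zero
  have hP : ∀ k, c k * ∏ e ∈ E, (x - e) ^ m k e ≠ 0 := fun k =>
    mul_ne_zero (hc k) (Finset.prod_ne_zero_iff.2 fun e' he' => pow_ne_zero _ (hne e' he'))
  have hval : ∀ v ∉ S, ∃ b : L, b ≠ 0 ∧ v.valuation L (x - e i) = v.valuation L b ^ 2 := by
    intro v hv
    have hw : ∀ k, ∃ y : L, y ≠ 0 ∧ ∏ e ∈ E, v.valuation L (x - e) ^ m k e = v.valuation L y ^ 2 := by
      intro k
      obtain ⟨t, ht, y, hy⟩ := hx k
      have h0 := hP k
      rw [hy] at h0
      have ht0 : t ≠ 0 := left_ne_zero_of_mul h0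
      have hy0 : y ≠ 0 := by
        rintro rfl
        rw [zero_pow two_ne_zero, mul_zero] at h0
        exact h0 rfl
      refine ⟨y, hy0, ?_⟩
      have h1 := congrArg (v.valuation L) hy
      rw [map_mul, map_mul, hS3 v hv k, hS4 v hv t ht ht0, one_mul, one_mul, map_prod, map_pow] at h1
      rw [← h1]
      exact Finset.prod_congr rfl fun e' _ => (map_pow _ _ _).symm
    rcases le_or_gt (v.valuation L x) 1 with hx1 | hx1
    · have hle : v.valuation L (x - e i) ≤ 1 :=
        le_trans (Valuation.map_sub _ _ _) (max_le hx1 (hS1 v hv _ hei))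
      rcases hle.lt_or_eq with h1 | h1
      · obtain ⟨y, hy0, hy⟩ := hw k
        have h2 : ∏ e' ∈ E, v.valuation L (x - e') ^ m k e' = v.valuation L (x - e i) ^ m k (e i) := by
          rw [← Finset.mul_prod_erase _ _ hei, Finset.prod_eq_one, mul_one]
          intro e' he'
          rw [Finset.mem_erase] at he'
          have h3 : v.valuation L (x - e') = 1 := by
            have h4 : x - e' = (x - e i) + (e i - e') := by ring
            have h5 := hS2 v hv _ hei _ he'.2 (Ne.symm he'.1)
            rw [h4, Valuation.map_add_eq_of_lt_right _ (by rw [h5]; exact h1), h5]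
          rw [h3, one_pow]
        obtain ⟨j, hj⟩ := hk
        refine ⟨y / (x - e i) ^ j, div_ne_zero hy0 (pow_ne_zero _ (hne _ hei)), ?_⟩
        rw [map_div₀, map_pow, div_pow, ← hy, h2, hj, ← pow_mul]
        have hw0 : v.valuation L (x - e i) ≠ 0 := (Valuation.ne_zero_iff _).2 (hne _ hei)
        rw [eq_div_iff (pow_ne_zero _ hw0), ← pow_succ', mul_comm j 2]
      · exact ⟨1, one_ne_zero, by rw [h1, map_one, one_pow]⟩
    · have heq : ∀ e' ∈ E, v.valuation L (x - e') = v.valuation L x := by
        intro e' he'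
        exact Valuation.map_sub_eq_of_lt_left _ (lt_of_le_of_lt (hS1 v hv e' he') hx1)
      have hx0 : x ≠ 0 := by
        rintro rfl
        rw [map_zero] at hx1
        exact absurd hx1 (not_lt.2 zero_le_one)
      obtain ⟨k0, j, hj⟩ := hodd
      obtain ⟨y, hy0, hy⟩ := hw k0
      rw [Finset.prod_congr rfl fun e' he' => by rw [heq e' he'], Finset.prod_pow_eq_pow_sum, hj] at hy
      refine ⟨y / x ^ j, div_ne_zero hy0 (pow_ne_zero _ hx0), ?_⟩
      rw [heq _ hei, map_div₀, map_pow, div_pow, ← hy, ← pow_mul]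
      have hw0 : v.valuation L x ≠ 0 := (Valuation.ne_zero_iff _).2 hx0
      rw [eq_div_iff (pow_ne_zero _ hw0), ← pow_succ', mul_comm j 2]
  obtain ⟨t, ht, b, -, hb⟩ := hT' (Units.mk0 _ (hne _ hei)) (by
    intro v hv
    obtain ⟨b, hb, hval⟩ := hval v hv
    have e1 : v.valuationOfNeZero (Units.mk0 _ (hne _ hei)) =
        v.valuationOfNeZero (Units.mk0 b hb) ^ 2 := by
      have h1 := v.valuationOfNeZero_eq (K := L) (Units.mk0 _ (hne _ hei))
      have h2 := v.valuationOfNeZero_eq (K := L) (Units.mk0 b hb)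
      rw [Units.val_mk0, hval] at h1
      rw [Units.val_mk0] at h2
      rw [← h2, ← WithZero.coe_pow] at h1
      exact WithZero.coe_inj.1 h1
    rw [e1, toAdd_pow]
    exact ⟨Multiplicative.toAdd (v.valuationOfNeZero (Units.mk0 b hb)), by simp⟩)
  rw [Units.val_mk0] at hb
  exact ⟨t, ht, b, hb⟩

end

end Pool.Agent.W2helper6.HE
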